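import Pool.Agent.H610.HD.Stm2

/-!
# Hexagonal packings fit in large squares (statement by helper610)
-/

set_option autoImplicit false

open MeasureTheory Set Filter

namespace Pool.Agent.H385.HD610

open Pool.Agent.K4H96.HS Pool.Agent.H610.HD

theorem pack : S_pack := by
  intro a ρ ha hρ hlt
  have h3 : 0 < √(3 : ℝ) := Real.sqrt_pos.2 (by norm_num)
  have h33 : √(3 : ℝ) * √3 = 3 := Real.mul_self_sqrt (by norm_num)
  have h2 : √(3 : ℝ) ≤ 2 := by nlinarith
  -- the gap of the densities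
  have hgap : 2 * √3 * a ^ 2 * ρ < 1 := by
    rw [lt_div_iff₀ (by positivity)] at hlt
    linarith
  -- for large `L`: `2√3 (ρ L² + 1) ≤ t²+ (2/3) t - √3`
  filter_upwards [eventually_gt_atTop (0:ℝ), eventually_gt_atTop (100 * a)] with L hL0 hL1
  obtain ⟨M, hM, hb⟩ := Pool.Agent.Y371.SQ.fits_many (t := L / a) (by positivity)
  rw [Pool.Agent.Y371.SQ.fits_iff] at hM
  obtain ⟨c, hc1, hc2⟩ := hM
  have htL : L / a * a = L := div_mul_cancel₀ L ha.ne'
  have ht : 100 < L / a := by rwa [lt_div_iff₀ ha]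
  have hle : ⌈ρ * L ^ 2⌉₊ ≤ M := by
    have h1 : (⌈ρ * L ^ 2⌉₊ : ℝ) < ρ * L ^ 2 + 1 := Nat.ceil_lt_add_one (by positivity)
    have h4 : ρ * L ^ 2 + 1 ≤ M := by
      have h5 : 2 * √3 * (ρ * L ^ 2) ≤ (L / a) ^ 2 := by
        have : 2 * √3 * (ρ * L ^ 2) = (2 * √3 * a ^ 2 * ρ) * (L / a) ^ 2 := by
          rw [← htL]; field_simp
        rw [this]
        nlinarith [sq_nonneg (L / a)]
      have h6 : 2 * √3 * (ρ * L ^ 2 + 1) ≤ 2 * √3 * M := by nlinarith
      have h7 : (0:ℝ) < 2 * √3 := by positivity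
      exact le_of_mul_le_mul_left h6 h7
    have h8 : (⌈ρ * L ^ 2⌉₊ : ℝ) < (M : ℝ) := lt_of_lt_of_le h1 h4
    exact_mod_cast h8.le
  refine ⟨fun i k => a * (c (Fin.castLE hle i) k - 1), ?_, ?_⟩
  · intro i k
    obtain ⟨h4, h5⟩ := hc1 (Fin.castLE hle i) k
    refine ⟨mul_nonneg ha.le (by linarith), ?_⟩
    have : a * (c (Fin.castLE hle i) k - 1) ≤ a * (L / a) :=
      mul_le_mul_of_nonneg_left (by linarith) ha.le
    linarith [mul_comm a (L / a)]
  · intro i j hij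
    have h4 := hc2 (Fin.castLE hle i) (Fin.castLE hle j) (fun h => hij (Fin.castLE_injective hle h))
    rw [EuclideanSpace.dist_eq] at h4
    have h5 : (2:ℝ) ^ 2 ≤ ∑ k, dist (c (Fin.castLE hle i) k) (c (Fin.castLE hle j) k) ^ 2 := by
      exact (Real.le_sqrt' (by norm_num)).1 h4
    simp only [Real.dist_eq, sq_abs] at h5
    calc (2 * a) ^ 2 = a ^ 2 * 2 ^ 2 := by ring
      _ ≤ a ^ 2 * ∑ k, (c (Fin.castLE hle i) k - c (Fin.castLE hle j) k) ^ 2 :=
          mul_le_mul_of_nonneg_left h5 (sq_nonneg a)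
      _ = ∑ k, (a * (c (Fin.castLE hle i) k - 1) - a * (c (Fin.castLE hle j) k - 1)) ^ 2 := by
          rw [Finset.mul_sum]
          refine Finset.sum_congr rfl fun k _ => ?_
          ring

end Pool.Agent.H385.HD610
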